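import Pool.Agent.W401.Gal.Motive2
import Pool.Agent.W401.Gal.IrrMain

/-!
# Artin motives attached to coefficients of bounded mean square (weight zero, Hodge type `(0,0)`)
-/

set_option autoImplicit false

namespace Pool.Agent.Results.MP_7742d9_nt.ArtinMotive

open NumberField IsDedekindDomain Polynomial Filter Topology Pool.Agent.W401.Cheb
  Pool.Agent.W401.Gal

theorem result (K : Type) [Field K] [NumberField K] (F : Type) [Field F] [NumberField F]
    (n : ℕ) (hn : 0 < n) (S : Set (HeightOneSpectrum (𝓞 K))) (hS : S.Finite)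
    (A : HeightOneSpectrum (𝓞 K) → (𝓞 F)[X]) (C : ℝ)
    (hRS : ∀ s : F →+* ℂ, ∀ᶠ N : ℕ in atTop,
      sumsq S (fun v => s ((tc n A v : 𝓞 F) : F)) N ≤ C * Nat.primeCounting N)
    (ι : F →+* ℂ) (c : ℝ) (hc : c < 2) (hc2 : ∃ᶠ N : ℕ in atTop,
      sumsq S (fun v => ι ((tc n A v : 𝓞 F) : F)) N ≤ c * Nat.primeCounting N)
    (Λ : Type) [Infinite Λ] (k : Λ → Type) [∀ l, Field (k l)] [∀ l, TopologicalSpace (k l)]
    [∀ l, IsTopologicalRing (k l)] [∀ l, T2Space (k l)] (r : ∀ l, 𝓞 F →+* k l)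
    (hr : ∀ a : 𝓞 F, a ≠ 0 → {l : Λ | r l a = 0}.Finite)
    (ρ : ∀ l, GK K →* GL (Fin n) (k l)) (hcont : ∀ l, Continuous (ρ l))
    (hsem : ∀ l, Semis (ρ l)) (hatt : ∀ l, Attached S A (r l) (ρ l)) :
    ∃ (E : Type) (_ : Field E) (_ : NumberField E) (_ : Algebra F E) (M : GK K →* GL (Fin n) E),
      IsOpen (M.ker : Set (GK K)) ∧
      Attached S A ((algebraMap F E).comp (algebraMap (𝓞 F) F)) M ∧
      ∀ (E' : Type) (_ : Field E') (j : E →+* E') (W : Submodule E' (Fin n → E')),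
        (∀ g : GK K, ∀ w ∈ W, ((M g : Matrix (Fin n) (Fin n) E).map j).mulVec w ∈ W) →
        W = ⊥ ∨ W = ⊤ := by
  obtain ⟨E, _, _, _, M, hop, hM⟩ := main_nf chebK Pool.Agent.W401.Frob.main
    Pool.Agent.W401.Gal.Prod.mainNF F hn hS A C hRS Λ k r hr ρ hcont hsem hatt
  refine ⟨E, inferInstance, inferInstance, inferInstance, M, hop, hM, ?_⟩
  intro E' _ j W hW
  exact abs_irr chebK Pool.Agent.W401.Frob.main hn hS A ι hc hc2 M hop hM j W hW

end Pool.Agent.Results.MP_7742d9_nt.ArtinMotive
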